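import Pool.Agent.W851.BE.Stm

/-!
# Project BE, part NRF: existence of a non-repelling fixed point
-/

set_option autoImplicit false

open Polynomial

namespace Pool.Agent.W962.BE.Nrf

open Pool.Agent.W95.BK Pool.Agent.W851.BE

universe u

theorem norm_sub_max {K : Type u} [NontriviallyNormedField K] [IsUltrametricDist K] {x y : K}
    (h : ‖x‖ ≠ ‖y‖) : ‖x - y‖ = max ‖x‖ ‖y‖ := by
  rw [sub_eq_add_neg, ← norm_neg y]
  exact IsUltrametricDist.norm_add_eq_max_of_norm_ne_norm (by rwa [norm_neg])

theorem key {K : Type u} [NontriviallyNormedField K] [IsUltrametricDist K] [IsAlgClosed K]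
    (F Q : K[X]) (n : ℕ) (hn : F.natDegree = n) (hn1 : 1 ≤ n) (hQ : Q.degree < n)
    (h : ∀ c, F.eval c = 0 → ‖Q.eval c‖ < ‖(derivative F).eval c‖) :
    ‖Q.coeff (n - 1)‖ < ‖F.leadingCoeff‖ := by
  classical
  have hF0 : F ≠ 0 := by
    rintro rfl
    simp at hn
    omega
  have hlc : 0 < ‖F.leadingCoeff‖ := norm_pos_iff.2 (leadingCoeff_ne_zero.2 hF0)
  have hsplit : F.Splits := IsAlgClosed.splits F
  have hnd : F.roots.Nodup := by
    rw [Multiset.nodup_iff_count_le_one]
    intro c
    rw [count_roots]
    by_contra hcon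
    push Not at hcon
    have h1 := (one_lt_rootMultiplicity_iff_isRoot hF0).1 hcon
    have h2 := h c h1.1
    have h3 : (derivative F).eval c = 0 := h1.2
    rw [h3, norm_zero] at h2
    exact absurd h2 (not_lt.2 (norm_nonneg _))
  set S : Finset K := F.roots.toFinset with hS
  have hcard : S.card = n := by
    rw [hS, Multiset.toFinset_card_of_nodup hnd, ← hn, hsplit.natDegree_eq_card_roots]
  have hprod : F = C F.leadingCoeff * Lagrange.nodal S id := by
    conv_lhs => rw [hsplit.eq_prod_roots]
    congr 1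
    have hv : S.val = F.roots := by rw [hS, Multiset.toFinset_val, Multiset.dedup_eq_self.2 hnd]
    show _ = (Multiset.map (fun c => X - C (id c)) S.val).prod
    rw [hv]
    rfl
  have hder : ∀ c ∈ S, (derivative F).eval c = F.leadingCoeff * ∏ j ∈ S.erase c, (c - j) := by
    intro c hc
    have h1 : (derivative F).eval c
        = (derivative (C F.leadingCoeff * Lagrange.nodal S id)).eval c := by rw [← hprod]
    rw [h1, derivative_C_mul, eval_C_mul]
    congr 1
    have h2 := Lagrange.eval_nodal_derivative_eval_node_eq (s := S) (v := (id : K → K)) hc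
    rw [Lagrange.eval_nodal] at h2
    exact h2
  have hco : Q.coeff (n - 1) = ∑ c ∈ S, Q.eval c / ∏ j ∈ S.erase c, (c - j) := by
    have h1 := Lagrange.coeff_eq_sum (s := S) (v := (id : K → K)) (Function.injective_id.injOn)
      (P := Q) (by rw [hcard]; exact hQ)
    rw [hcard] at h1
    exact h1
  have hne : S.Nonempty := by
    rw [← Finset.card_pos, hcard]
    omega
  obtain ⟨c, hc, hle⟩ := IsUltrametricDist.exists_norm_finsetSum_le_of_nonempty hne
    (fun c => Q.eval c / ∏ j ∈ S.erase c, (c - j))
  rw [hco]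
  refine hle.trans_lt ?_
  have hroot : F.eval c = 0 := (mem_roots hF0).1 (Multiset.mem_toFinset.1 hc)
  have h1 := h c hroot
  rw [hder c hc, norm_mul] at h1
  have hpr : 0 < ‖∏ j ∈ S.erase c, (c - j)‖ := by
    rw [norm_pos_iff, Finset.prod_ne_zero_iff]
    intro j hj
    exact sub_ne_zero.2 (Finset.ne_of_mem_erase hj).symm
  rw [norm_div, div_lt_iff₀ hpr]
  exact h1

theorem main : S_NRF.{u} := by
  intro K _ _ _ R hd
  by_contra hcon
  push Not at hcon
  obtain ⟨hnri, hcl⟩ := hcon
  have hPd : R.P.natDegree ≤ R.d := by rw [← R.deg_eq]; exact le_max_left _ _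
  have hQd : R.Q.natDegree ≤ R.d := by rw [← R.deg_eq]; exact le_max_right _ _
  set F : K[X] := R.P - X * R.Q with hF
  have hroot : ∀ c, F.eval c = 0 → ‖R.Q.eval c‖ < ‖(derivative F).eval c‖ := by
    intro c hc
    have h1 : R.P.eval c = c * R.Q.eval c := by
      rw [hF, eval_sub, eval_mul, eval_X, sub_eq_zero] at hc
      exact hc
    have h2 : R.Q.eval c ≠ 0 := by
      intro h0
      rw [h0, mul_zero] at h1
      obtain ⟨a, b, hab⟩ := R.cop
      have := congrArg (eval c) hab
      rw [eval_add, eval_mul, eval_mul, h1, h0, eval_one] at this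
      simp at this
    have h3 := hcl c h2 h1
    have h4 : (wr R).eval c = ((derivative R.P).eval c - c * (derivative R.Q).eval c) * R.Q.eval c := by
      unfold wr
      rw [eval_sub, eval_mul, eval_mul, h1]
      ring
    have hQ0 : 0 < ‖R.Q.eval c‖ := norm_pos_iff.2 h2
    rw [h4, norm_mul, sq] at h3
    have h5 : ‖R.Q.eval c‖ < ‖(derivative R.P).eval c - c * (derivative R.Q).eval c‖ :=
      lt_of_mul_lt_mul_right h3 hQ0.le
    have h6 : (derivative F).eval c
        = ((derivative R.P).eval c - c * (derivative R.Q).eval c) - R.Q.eval c := by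
      rw [hF]
      simp only [derivative_sub, derivative_mul, derivative_X, eval_sub, eval_add, eval_mul, eval_X,
        eval_one, one_mul]
      ring
    rw [h6]
    have h7 := norm_sub_max h5.ne'
    rw [h7, max_eq_left h5.le]
    exact h5
  have hcoef : ∀ m, F.coeff (m + 1) = R.P.coeff (m + 1) - R.Q.coeff m := by
    intro m
    rw [hF, coeff_sub, coeff_X_mul]
  by_cases hq : R.Q.coeff R.d = 0
  · -- infinity is a fixed point
    have hlt : ‖R.P.coeff R.d‖ < ‖R.Q.coeff (R.d - 1)‖ := by
      by_contra hle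
      exact hnri ⟨hq, not_lt.1 hle⟩
    obtain ⟨e, he⟩ : ∃ e, R.d = e + 1 := ⟨R.d - 1, by omega⟩
    rw [he, Nat.add_sub_cancel] at hlt
    rw [he] at hq hPd hQd
    have hFc : ‖F.coeff (e + 1)‖ = ‖R.Q.coeff e‖ := by
      rw [hcoef, norm_sub_max hlt.ne, max_eq_right hlt.le]
    have hQ0 : 0 < ‖R.Q.coeff e‖ := (norm_nonneg _).trans_lt hlt
    have hQdeg : R.Q.natDegree ≤ e := by
      rw [natDegree_le_iff_coeff_eq_zero]
      intro m hm
      rcases Nat.lt_or_ge (e + 1) m with h | h
      · exact coeff_eq_zero_of_natDegree_lt (by omega)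
      · have : m = e + 1 := by omega
        rw [this]
        exact hq
    have hFle : F.natDegree ≤ e + 1 := by
      rw [hF]
      refine (natDegree_sub_le _ _).trans (max_le hPd ?_)
      refine (natDegree_mul_le).trans ?_
      rw [natDegree_X]
      omega
    have hFn : F.natDegree = e + 1 := by
      refine le_antisymm hFle (le_natDegree_of_ne_zero ?_)
      rw [← norm_pos_iff, hFc]
      exact hQ0
    have h1 := key F R.Q (e + 1) hFn (by omega)
      (lt_of_le_of_lt degree_le_natDegree (by exact_mod_cast Nat.lt_succ_of_le hQdeg)) hroot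
    rw [leadingCoeff, hFn, hFc, Nat.add_sub_cancel] at h1
    exact lt_irrefl _ h1
  · have hFle : F.natDegree ≤ R.d + 1 := by
      rw [hF]
      refine (natDegree_sub_le _ _).trans (max_le (by omega) ?_)
      refine (natDegree_mul_le).trans ?_
      rw [natDegree_X]
      omega
    have hFc : F.coeff (R.d + 1) = - R.Q.coeff R.d := by
      rw [hcoef, coeff_eq_zero_of_natDegree_lt (by omega : R.P.natDegree < R.d + 1), zero_sub]
    have hFn : F.natDegree = R.d + 1 := by
      refine le_antisymm hFle (le_natDegree_of_ne_zero ?_)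
      rw [hFc]
      exact neg_ne_zero.2 hq
    have h1 := key F R.Q (R.d + 1) hFn (by omega)
      (lt_of_le_of_lt degree_le_natDegree (by exact_mod_cast Nat.lt_succ_of_le hQd)) hroot
    rw [leadingCoeff, hFn, hFc, Nat.add_sub_cancel, norm_neg] at h1
    exact lt_irrefl _ h1

end Pool.Agent.W962.BE.Nrf
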